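import Pool.Agent.Y458.AC.Uni

set_option autoImplicit false

/-!
# Infinite antichains of matroids with only one non-trivial uniform minor

The infinite antichain of relaxed binary matroids, which has a member of every finite Tutte
connectivity, avoids every uniform matroid of rank and corank at least two other than `U_{2,4}`,
and every member has the minor `U_{2,4}`.
-/

namespace Pool.Agent.Results.MP_5d01ce_co.OnlyFourPointLine

open Set

/-- `N` is isomorphic to a minor of `M`. -/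
def IsoMinor (N M : Matroid ℕ) : Prop :=
  ∃ f : ℕ → ℕ, ∃ hf : Set.InjOn f N.E, (N.map f hf).IsMinor M

/-- `M` has a `j`-separation. -/
def HasSeparation (M : Matroid ℕ) (j : ℕ) : Prop :=
  ∃ X ⊆ M.E, (j : ℕ∞) ≤ X.encard ∧ (j : ℕ∞) ≤ (M.E \ X).encard ∧
    M.eRk X + M.eRk (M.E \ X) + 1 ≤ M.eRank + j

/-- The Tutte connectivity of `M` is the finite number `k`. -/
def HasTutteConnectivity (M : Matroid ℕ) (k : ℕ) : Prop :=
  IsLeast {j : ℕ | 1 ≤ j ∧ HasSeparation M j} k

/-- `U` is a uniform matroid `U_{r,n}`. -/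
def IsUniform (U : Matroid ℕ) (r n : ℕ) : Prop :=
  U.E.encard = n ∧ ∀ I : Set ℕ, U.Indep I ↔ (I ⊆ U.E ∧ I.encard ≤ r)

/-- There is an infinite antichain of finite matroids having a member of Tutte connectivity
exactly `k` for every positive integer `k`, such that for each member the only uniform matroid of
rank and corank at least two which is isomorphic to a minor of it is `U_{2,4}`. -/
theorem result :
    ∃ 𝒩 : Set (Matroid ℕ), 𝒩.Infinite ∧ (∀ M ∈ 𝒩, M.E.Finite) ∧
      (∀ N ∈ 𝒩, ∀ M ∈ 𝒩, N ≠ M → ¬ IsoMinor N M) ∧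
      (∀ k : ℕ, 1 ≤ k → ∃ M ∈ 𝒩, HasTutteConnectivity M k) ∧
      ∀ M ∈ 𝒩, ∀ r n : ℕ, 2 ≤ r → r + 2 ≤ n →
        ((∃ U : Matroid ℕ, U.IsMinor M ∧ IsUniform U r n) ↔ r = 2 ∧ n = 4) := by
  choose Mk hfin hstar hspecial hrank htutte using
    fun k : ℕ => Disproof.exists_mat (k + 1) (by omega)
  have hmono : ∀ i j : ℕ, i < j → 2 ^ (20 * (i + 1 + 1)) < 2 ^ (20 * (j + 1 + 1)) := by
    intro i j hij
    exact Nat.pow_lt_pow_right (by norm_num) (by omega)
  have hne : ∀ i j : ℕ, Mk i = Mk j → i = j := by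
    intro i j h
    have h1 := hrank i
    rw [h, hrank j] at h1
    have h2 : 2 ^ (20 * (j + 1 + 1)) = 2 ^ (20 * (i + 1 + 1)) := by exact_mod_cast h1
    rcases lt_trichotomy i j with h3 | h3 | h3
    · have := hmono i j h3; omega
    · exact h3
    · have := hmono j i h3; omega
  refine ⟨range Mk, infinite_range_of_injective hne, ?_, ?_, ?_, ?_⟩
  · rintro _ ⟨i, rfl⟩; exact hfin i
  · rintro _ ⟨i, rfl⟩ _ ⟨j, rfl⟩ hij ⟨f, hf, hminor⟩
    have hij' : i ≠ j := fun h => hij (by rw [h])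
    rcases lt_or_gt_of_ne hij' with hlt | hlt
    · obtain ⟨H, K, hdisj, hH, hK, hQ⟩ := hspecial j
      refine Disproof.not_star_minor hdisj hQ hminor ?_ ?_ ((hstar i).map f hf)
      · rw [Matroid.eRank_map, hrank i, hH]
        exact_mod_cast hmono i j hlt
      · rw [Matroid.eRank_map, hrank i, hK]
        exact_mod_cast hmono i j hlt
    · -- ranks cannot increase in minors
      obtain ⟨B, hB⟩ := ((Mk i).map f hf).exists_isBase
      have h1 := hB.indep.of_isMinor hminor
      have h2 := h1.encard_le_eRank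
      rw [hB.encard_eq_eRank, Matroid.eRank_map, hrank i, hrank j] at h2
      have h3 : 2 ^ (20 * (i + 1 + 1)) ≤ 2 ^ (20 * (j + 1 + 1)) := by exact_mod_cast h2
      have := hmono j i hlt
      omega
  · intro k hk
    obtain ⟨k, rfl⟩ := Nat.exists_eq_add_of_le' hk
    exact ⟨Mk k, ⟨k, rfl⟩, htutte k⟩
  · rintro _ ⟨j, rfl⟩ r n hr hrn
    obtain ⟨H, K, hdisj, hH, hK, hQ⟩ := hspecial j
    constructor
    · rintro ⟨U, hU, hE, hI⟩
      by_cases h5 : 5 ≤ n
      swap
      · omega
      exfalso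
      by_cases hr4 : 4 ≤ r
      · obtain ⟨S, S', hS⟩ := Y458.AC.two_special hQ hU
        exact Y458.AC.not_two_special hr4 hrn hE hI S S' hS
      · have hUr : U.eRank ≤ 3 := by
          obtain ⟨B, hB⟩ := U.exists_isBase
          rw [← hB.encard_eq_eRank]
          refine ((hI B).mp hB.indep).2.trans ?_
          exact_mod_cast (show r ≤ 3 by omega)
        have hbig : (3 : ℕ∞) < ((2 ^ (20 * (j + 1 + 1)) : ℕ) : ℕ∞) := by
          have : 3 < 2 ^ (20 * (j + 1 + 1)) := by
            calc 3 < 2 ^ 20 := by norm_num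
              _ ≤ 2 ^ (20 * (j + 1 + 1)) := Nat.pow_le_pow_right (by norm_num) (by omega)
          exact_mod_cast this
        obtain ⟨S, hS⟩ := Y458.AC.one_special hdisj hQ hU
          (by rw [hH]; exact lt_of_le_of_lt hUr hbig) (by rw [hK]; exact lt_of_le_of_lt hUr hbig)
        exact Y458.AC.not_one_special hr hrn h5 hE hI S hS
    · rintro ⟨rfl, rfl⟩
      obtain ⟨e, ⟨A, a, b, c, d, hC, -⟩, -⟩ := hstar j
      obtain ⟨U, hU, hE, hI⟩ := Y458.AC.minor_of_cfg hC
      exact ⟨U, hU, by rw [hE]; rfl, fun I => by rw [hI]; rfl⟩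

end Pool.Agent.Results.MP_5d01ce_co.OnlyFourPointLine
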